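import Pool.Agent.J6H49.SY.Defs

/-!
# Module INST: the formulas
-/

set_option autoImplicit false

namespace Pool.Agent.J6H28.SY

open Pool.Agent.J6H49.SY

variable {ι : Type} {m n : ℕ}

/-- the double transposition -/
def s0 : A5 := ⟨Equiv.swap 0 1 * Equiv.swap 2 3, by
  rw [Equiv.Perm.mem_alternatingGroup, map_mul, Equiv.Perm.sign_swap (by decide),
    Equiv.Perm.sign_swap (by decide)]
  rfl⟩

/-- a five-cycle -/
def p0 : A5 := ⟨finRotate 5, by
  rw [Equiv.Perm.mem_alternatingGroup, sign_finRotate]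
  rfl⟩

theorem s0_pos (x : Bool) : (s0 : Equiv.Perm (Fin 5)) (pos x) = pos (!x) := by
  cases x <;> decide

theorem s0_sq : s0 * s0 = 1 := by
  apply Subtype.ext
  apply Equiv.ext
  intro j
  fin_cases j <;> decide

theorem p0_ne (j : Fin 5) : (p0 : Equiv.Perm (Fin 5)) j ≠ j := by
  fin_cases j <;> decide

theorem inc_snd (σ : Fin 3 → Equiv.Perm (Fin n)) (v : Fin n × Bool) (t : Fin 3) :
    (inc σ v t).2 = t := by
  unfold inc
  split_ifs <;> rfl

theorem inc_false (σ : Fin 3 → Equiv.Perm (Fin n)) (i : Fin n) (t : Fin 3) :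
    inc σ (i, false) t = (i, t) := rfl

theorem inc_true (σ : Fin 3 → Equiv.Perm (Fin n)) (i : Fin n) (t : Fin 3) :
    inc σ (i, true) t = ((σ t).symm i, t) := rfl

theorem third (σ : Fin 3 → Equiv.Perm (Fin n)) {u w v : Fin n × Bool} {t : Fin 3}
    (h : inc σ u t = inc σ w t) (hne : u ≠ w) (hv : inc σ v t = inc σ u t) : v = u ∨ v = w := by
  obtain ⟨u1, ub⟩ := u
  obtain ⟨w1, wb⟩ := w
  obtain ⟨v1, vb⟩ := v
  cases ub <;> cases wb <;> cases vb <;>
    simp only [inc_false, inc_true, Prod.mk.injEq, and_true, Equiv.symm_apply_eq,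
      EmbeddingLike.apply_eq_iff_eq, ne_eq] at h hne hv ⊢
  · exact absurd h hne
  · exact absurd h hne
  · exact Or.inl hv
  · right
    subst h
    rw [hv]
    simp
  · right
    rw [hv, h]
    simp
  · left
    exact hv
  · exact absurd h hne
  · exact absurd h hne

/-- the block permutation of an edge -/
def sw [DecidableEq ι] (i : ι) : ι → A5 := Pi.mulSingle i s0

theorem sw_sq [DecidableEq ι] (i : ι) : sw i * sw i = 1 := by
  unfold sw
  rw [← Pi.mulSingle_mul, s0_sq, Pi.mulSingle_one]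

theorem mc_sw_sw [DecidableEq ι] (i : ι) (c : Clause ι m) : mc (sw i) (mc (sw i) c) = c := by
  rw [← mc_mul, sw_sq, mc_one]

theorem mv_sw_same [DecidableEq ι] (i : ι) (x : Bool) :
    mv (m := m) (sw i) (Sum.inl (i, pos x)) = Sum.inl (i, pos (!x)) := by
  simp [mv, sw, s0_pos]

theorem mv_sw_ne [DecidableEq ι] {i i' : ι} (h : i' ≠ i) (j : Fin 5) :
    mv (m := m) (sw i) (Sum.inl (i', j)) = Sum.inl (i', j) := by
  simp [mv, sw, Pi.mulSingle_eq_of_ne h]

theorem flip_flip (b : Fin n × Bool → Bool) (u w : Fin n × Bool) :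
    Pool.Agent.J6H49.SY.flip (Pool.Agent.J6H49.SY.flip (Pool.Agent.J6H49.SY.flip
      (Pool.Agent.J6H49.SY.flip b u) w) u) w = b := by
  funext v
  unfold Pool.Agent.J6H49.SY.flip
  cases b v <;> cases decide (v = u) <;> cases decide (v = w) <;> rfl

theorem par_update (τ g : Fin 3 → Bool) (t : Fin 3) :
    par (Function.update τ t (!τ t)) g = !par τ g := by
  unfold par
  fin_cases t
  · simp [Function.update]
  · simp [Function.update]
  · simp [Function.update]

open Classical in
theorem X_iff (σ : Fin 3 → Equiv.Perm (Fin n)) (ε : Fin n × Fin 3 ↪ ι) (b : Fin n × Bool → Bool)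
    (c : Clause ι m) : X σ ε b c = true ↔ IsCl σ ε b c := by
  unfold X
  exact decide_eq_true_iff

theorem X_eq (σ : Fin 3 → Equiv.Perm (Fin n)) (ε : Fin n × Fin 3 ↪ ι) (b b' : Fin n × Bool → Bool)
    (c c' : Clause ι m) (h : IsCl σ ε b c ↔ IsCl σ ε b' c') : X σ ε b c = X σ ε b' c' := by
  rw [Bool.eq_iff_iff, X_iff, X_iff]
  exact h

theorem step [DecidableEq ι] (σ : Fin 3 → Equiv.Perm (Fin n)) (ε : Fin n × Fin 3 ↪ ι)
    (b : Fin n × Bool → Bool) {u w : Fin n × Bool} {t : Fin 3} (h : inc σ u t = inc σ w t)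
    (hne : u ≠ w) (c : Clause ι m) (hc : IsCl σ ε b c) :
    IsCl σ ε (flip (flip b u) w) (mc (sw (ε (inc σ u t))) c) := by
  rcases hc with ⟨e, τ, s, hf, ht, hc⟩ | ⟨v, τ, g, hc, hp⟩
  · left
    by_cases he : e = inc σ u t
    · refine ⟨e, fun k => !τ k, s, ?_, ?_, fun k => ?_⟩
      · obtain ⟨k, hk⟩ := ht
        exact ⟨k, by simp [hk]⟩
      · obtain ⟨k, hk⟩ := hf
        exact ⟨k, by simp [hk]⟩
      · show (mv _ (c k).1, (c k).2) = _
        rw [hc k, ← he, mv_sw_same]
    · refine ⟨e, τ, s, hf, ht, fun k => ?_⟩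
      show (mv _ (c k).1, (c k).2) = _
      rw [hc k, mv_sw_ne (ε.injective.ne he)]
  · right
    by_cases hv : v = u ∨ v = w
    · have hvt : inc σ v t = inc σ u t := by
        rcases hv with rfl | rfl
        · rfl
        · exact h.symm
      refine ⟨v, Function.update τ t (!τ t), g, fun t' => ?_, ?_⟩
      · show (mv _ (c t').1, (c t').2) = _
        rw [hc t']
        by_cases ht' : t' = t
        · subst ht'
          rw [hvt, mv_sw_same, Function.update_self]
        · have hne' : inc σ v t' ≠ inc σ u t := by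
            intro he
            apply ht'
            rw [← inc_snd σ v t', he, inc_snd]
          rw [mv_sw_ne (ε.injective.ne hne'), Function.update_of_ne ht']
      · rw [par_update, hp]
        unfold Pool.Agent.J6H49.SY.flip
        rcases hv with rfl | rfl
        · simp [hne]
        · simp [Ne.symm hne]
    · refine ⟨v, τ, g, fun t' => ?_, ?_⟩
      · show (mv _ (c t').1, (c t').2) = _
        have hne' : inc σ v t' ≠ inc σ u t := by
          intro he
          have ht' : t' = t := by rw [← inc_snd σ v t', he, inc_snd]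
          subst ht'
          exact hv (third σ h hne he)
        rw [hc t', mv_sw_ne (ε.injective.ne hne')]
      · rw [hp]
        unfold Pool.Agent.J6H49.SY.flip
        push Not at hv
        simp [hv.1, hv.2]

theorem part_one [DecidableEq ι] (σ : Fin 3 → Equiv.Perm (Fin n)) (ε : Fin n × Fin 3 ↪ ι) :
    ∃ s : A5, ∀ (t : Fin 3) (u w : Fin n × Bool), inc σ u t = inc σ w t → u ≠ w →
      ∀ b : Fin n × Bool → Bool,
        act (Pi.mulSingle (ε (inc σ u t)) s) (X (m := m) σ ε b) = X σ ε (flip (flip b u) w) := by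
  refine ⟨s0, fun t u w h hne b => ?_⟩
  funext c
  unfold act
  apply X_eq
  show IsCl σ ε b (mc (sw (ε (inc σ u t))) c) ↔ _
  constructor
  · intro hc
    have := step σ ε b h hne _ hc
    rwa [mc_sw_sw] at this
  · intro hc
    have := step σ ε _ h hne _ hc
    rwa [flip_flip] at this

theorem part_two (σ : Fin 3 → Equiv.Perm (Fin n)) (ε : Fin n × Fin 3 ↪ ι) :
    Sat (X (m := m) σ ε fun _ => false) := by
  refine ⟨fun w => Sum.elim (fun p => decide (p.2 = 1)) (fun _ => false) w, fun c hc => ?_⟩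
  have hpos : ∀ x : Bool, decide (pos x = 1) = x := by
    intro x; cases x <;> decide
  have hc' : IsCl σ ε (fun _ => false) c := (X_iff σ ε _ c).1 hc
  rcases hc' with ⟨e, τ, s, hf, ht, hc⟩ | ⟨v, τ, g, hc, hp⟩
  · have : ∃ k, τ k = s := by
      cases s
      · exact hf
      · exact ht
    obtain ⟨k, hk⟩ := this
    refine ⟨k, ?_⟩
    rw [hc k]
    show decide (pos (τ k) = 1) = s
    rw [hpos, hk]
  · by_contra hcon
    push Not at hcon
    have h1 : ∀ t, τ t = !g t := by
      intro t
      have h2 := hcon t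
      rw [hc t] at h2
      change decide (pos (τ t) = 1) ≠ g t at h2
      rw [hpos] at h2
      cases h3 : τ t <;> cases h4 : g t <;> simp_all
    unfold par at hp
    rw [h1 0, h1 1, h1 2] at hp
    revert hp
    cases g 0 <;> cases g 1 <;> cases g 2 <;> simp

/-- a bit as a number modulo two -/
def bz (x : Bool) : ZMod 2 := if x then 1 else 0

theorem bz_xor (x y : Bool) : bz (x ^^ y) = bz x + bz y := by
  cases x <;> cases y <;> decide

theorem part_three (σ : Fin 3 → Equiv.Perm (Fin n)) (ε : Fin n × Fin 3 ↪ ι) (v : Fin n × Bool) :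
    ¬ Sat (X (m := m) σ ε (flip (fun _ => false) v)) := by
  rintro ⟨a, ha⟩
  set b := flip (fun _ => false) v with hb
  set y : Fin n × Fin 3 → Bool := fun e => a (Sum.inl (ε e, pos false)) with hy
  have hA : ∀ c : Clause ι m, IsCl σ ε b c → ∃ k, a (c k).1 = (c k).2 := fun c hc =>
    ha c ((X_iff σ ε b c).2 hc)
  -- the equation at a vertex
  have hv : ∀ u : Fin n × Bool, ((y (inc σ u 0) ^^ y (inc σ u 1)) ^^ y (inc σ u 2)) = b u := by
    intro u
    by_contra hne
    obtain ⟨k, hk⟩ := hA (fun t => (Sum.inl (ε (inc σ u t), pos false), !y (inc σ u t)))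
      (Or.inr ⟨u, fun _ => false, fun t => !y (inc σ u t), fun t => rfl, by
        show (((false ^^ !y (inc σ u 0)) ^^ (false ^^ !y (inc σ u 1))) ^^ (false ^^ !y (inc σ u 2))) = b u
        revert hne
        cases y (inc σ u 0) <;> cases y (inc σ u 1) <;> cases y (inc σ u 2) <;> cases b u <;> simp⟩)
    have h1 : a (Sum.inl (ε (inc σ u k), pos false)) = !y (inc σ u k) := hk
    rw [hy] at h1
    simp at h1
  have hsum : ∑ u : Fin n × Bool, ((bz (y (inc σ u 0)) + bz (y (inc σ u 1))) + bz (y (inc σ u 2))) =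
      ∑ u : Fin n × Bool, bz (b u) := by
    apply Finset.sum_congr rfl
    intro u _
    rw [← hv u, bz_xor, bz_xor]
  have hright : ∑ u : Fin n × Bool, bz (b u) = 1 := by
    rw [Finset.sum_eq_single v]
    · simp [hb, Pool.Agent.J6H49.SY.flip, bz]
    · intro u _ hu
      simp [hb, Pool.Agent.J6H49.SY.flip, bz, hu]
    · intro h
      exact absurd (Finset.mem_univ v) h
  have hleft : ∀ t : Fin 3, ∑ u : Fin n × Bool, bz (y (inc σ u t)) = 0 := by
    intro t
    rw [Fintype.sum_prod_type_right, Fintype.sum_bool]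
    have h1 : ∑ x, bz (y (inc σ (x, true) t)) = ∑ x, bz (y (inc σ (x, false) t)) := by
      simp only [inc_true, inc_false]
      exact Equiv.sum_comp (σ t).symm (fun x => bz (y (x, t)))
    rw [h1]
    exact CharTwo.add_self_eq_zero _
  rw [hright, Finset.sum_add_distrib, Finset.sum_add_distrib, hleft, hleft, hleft] at hsum
  simp at hsum

theorem part_four [Fintype ι] [DecidableEq ι] (σ : Fin 3 → Equiv.Perm (Fin n)) (ε : Fin n × Fin 3 ↪ ι)
    (K : Finset ι) (c : Clause ι m) (hfix : ∀ γ : ι → A5, (∀ i ∈ K, γ i = 1) → mc γ c = c)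
    (γ δ : ι → A5) (hγδ : ∀ i ∈ K, γ i = δ i) (b : Fin n × Bool → Bool) (v : Fin n × Bool)
    (hv : ∃ t, ε (inc σ v t) ∉ K) : act γ (X σ ε b) c = act δ (X σ ε (flip b v)) c := by
  -- the variables are in the blocks of `K`
  have hK : ∀ k i j, (c k).1 = Sum.inl (i, j) → i ∈ K := by
    intro k i j h
    by_contra hi
    have h1 := congrFun (hfix (Pi.mulSingle i p0) (fun i' hi' => by
      apply Pi.mulSingle_eq_of_ne
      rintro rfl
      exact hi hi')) k
    have h2 : mv (Pi.mulSingle i p0) (c k).1 = (c k).1 := congrArg Prod.fst h1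
    rw [h] at h2
    have h3 : (i, ((Pi.mulSingle i p0 : ι → A5) i : Equiv.Perm (Fin 5)) j) = (i, j) :=
      Sum.inl.inj h2
    rw [Pi.mulSingle_eq_same] at h3
    exact p0_ne j (congrArg Prod.snd h3)
  have hcc : mc γ c = mc δ c := by
    funext k
    show (mv γ (c k).1, (c k).2) = (mv δ (c k).1, (c k).2)
    rcases h : (c k).1 with ⟨i, j⟩ | w
    · have : mv (m := m) γ (Sum.inl (i, j)) = mv δ (Sum.inl (i, j)) := by
        simp only [mv, Sum.map_inl]
        rw [hγδ i (hK k i j h)]
      rw [this]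
    · rfl
  have hK' : ∀ k i j, (mc δ c k).1 = Sum.inl (i, j) → i ∈ K := by
    intro k i j h
    have h' : mv δ (c k).1 = Sum.inl (i, j) := h
    rcases h1 : (c k).1 with ⟨i', j'⟩ | w
    · rw [h1] at h'
      have h2 := Sum.inl.inj h'
      have h3 : i' = i := congrArg Prod.fst h2
      exact h3 ▸ hK k i' j' h1
    · rw [h1] at h'
      exact absurd h' (by simp [mv])
  unfold act
  rw [hcc]
  apply X_eq
  obtain ⟨t₀, ht₀⟩ := hv
  have key : ∀ b b' : Fin n × Bool → Bool, (∀ u, u ≠ v → b u = b' u) →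
      IsCl σ ε b (mc δ c) → IsCl σ ε b' (mc δ c) := by
    intro b b' hbb hc
    rcases hc with h | ⟨u, τ, g, hc, hp⟩
    · exact Or.inl h
    · have hu : u ≠ v := by
        rintro rfl
        apply ht₀
        apply hK' t₀ _ (pos (τ t₀))
        rw [hc t₀]
      exact Or.inr ⟨u, τ, g, hc, by rw [hp, hbb u hu]⟩
  constructor
  · apply key
    intro u hu
    simp [Pool.Agent.J6H49.SY.flip, hu]
  · apply key
    intro u hu
    simp [Pool.Agent.J6H49.SY.flip, hu]

theorem main : S_INST := fun _ _ _ _ _ σ ε =>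
  ⟨part_one σ ε, part_two σ ε, part_three σ ε, fun K c hfix γ δ h b v hv =>
    part_four σ ε K c hfix γ δ h b v hv⟩

end Pool.Agent.J6H28.SY
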